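import Pool.Agent.H318R3.St.Line

/-!
# Steiner symmetrization of compact sets

For an arbitrary compact set `K` (no convexity): the Steiner symmetral `sym u K` is compact, has the
volume of `K`, stays in every centred ball containing `K`, and
`volume (K ∩ B) ≤ volume (sym u K ∩ B)` for every centred ball `B`.
-/

set_option autoImplicit false

open MeasureTheory Set Filter Topology Metric
open scoped RealInnerProductSpace ENNReal Pointwise

namespace Q187.Steiner

open Pool.Agent.H318R3.St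

section algebra

variable {E : Type*} [NormedAddCommGroup E] [InnerProductSpace ℝ E]

lemma norm_line {u x : E} (hu : ‖u‖ = 1) (hx : ⟪x, u⟫ = 0) (t : ℝ) :
    ‖x + t • u‖ ^ 2 = ‖x‖ ^ 2 + t ^ 2 := by
  rw [norm_add_sq_real, inner_smul_right, hx, norm_smul, hu]
  simp

lemma mem_sym_iff {u : E} (hu : ‖u‖ = 1) (y : E) (K : Set E) :
    y ∈ sym u K ↔ (chord u (foot u y) K).Nonempty ∧
      2 * |⟪y, u⟫| ≤ (volume (chord u (foot u y) K)).toReal := by
  have := mem_sym_line hu (foot_inner hu y) ⟪y, u⟫ K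
  rwa [foot_add] at this

lemma chord_subset_of_ball {u x : E} (hu : ‖u‖ = 1) (hx : ⟪x, u⟫ = 0) {K : Set E} {ρ : ℝ}
    (hρ : 0 ≤ ρ) (hK : K ⊆ closedBall 0 ρ) :
    chord u x K ⊆ Icc (-√(ρ ^ 2 - ‖x‖ ^ 2)) (√(ρ ^ 2 - ‖x‖ ^ 2)) := by
  intro s hs
  have h1 : ‖x + s • u‖ ≤ ρ := by
    have := hK hs
    rwa [mem_closedBall_zero_iff] at this
  have h2 : ‖x + s • u‖ ^ 2 ≤ ρ ^ 2 := by
    apply pow_le_pow_left₀ (norm_nonneg _) h1
  rw [norm_line hu hx] at h2
  rw [mem_Icc, ← abs_le]
  apply Real.abs_le_sqrt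
  linarith

lemma chord_ball {u x : E} (hu : ‖u‖ = 1) (hx : ⟪x, u⟫ = 0) {ρ : ℝ}
    (hρ : 0 ≤ ρ) (hxρ : ‖x‖ ≤ ρ) :
    chord u x (closedBall 0 ρ) = Icc (-√(ρ ^ 2 - ‖x‖ ^ 2)) (√(ρ ^ 2 - ‖x‖ ^ 2)) := by
  apply Subset.antisymm (chord_subset_of_ball hu hx hρ le_rfl)
  intro s hs
  rw [mem_Icc, ← abs_le] at hs
  have h0 : 0 ≤ ρ ^ 2 - ‖x‖ ^ 2 := by
    have := pow_le_pow_left₀ (norm_nonneg x) hxρ 2
    linarith
  have h1 : s ^ 2 ≤ ρ ^ 2 - ‖x‖ ^ 2 := by
    have := pow_le_pow_left₀ (abs_nonneg s) hs 2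
    rwa [sq_abs, Real.sq_sqrt h0] at this
  show x + s • u ∈ closedBall 0 ρ
  rw [mem_closedBall_zero_iff]
  have h2 := norm_line hu hx s
  apply le_of_sq_le_sq _ hρ
  rw [h2]
  linarith

/-- A Steiner symmetral stays in every centred ball containing the set. -/
lemma sym_subset_closedBall {u : E} (hu : ‖u‖ = 1) {K : Set E} {ρ : ℝ}
    (hρ : 0 ≤ ρ) (hK : K ⊆ closedBall 0 ρ) : sym u K ⊆ closedBall 0 ρ := by
  rintro y ⟨x, t, rfl, hx, ⟨s, hs⟩, ht⟩
  have hch := chord_subset_of_ball hu hx hρ hK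
  have h0 : 0 ≤ ρ ^ 2 - ‖x‖ ^ 2 := by
    have h1 : ‖x + s • u‖ ≤ ρ := by
      have := hK hs
      rwa [mem_closedBall_zero_iff] at this
    have h2 := pow_le_pow_left₀ (norm_nonneg _) h1 2
    rw [norm_line hu hx] at h2
    nlinarith [sq_nonneg s]
  have h1 : (volume (chord u x K)).toReal ≤ 2 * √(ρ ^ 2 - ‖x‖ ^ 2) := by
    have h2 : volume (chord u x K) ≤ ENNReal.ofReal (2 * √(ρ ^ 2 - ‖x‖ ^ 2)) := by
      refine (measure_mono hch).trans ?_
      rw [Real.volume_Icc]
      apply ENNReal.ofReal_le_ofReal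
      linarith
    exact ENNReal.toReal_le_of_le_ofReal (by positivity) h2
  have h2 : |t| ≤ √(ρ ^ 2 - ‖x‖ ^ 2) := by linarith
  have h3 : t ^ 2 ≤ ρ ^ 2 - ‖x‖ ^ 2 := by
    have := pow_le_pow_left₀ (abs_nonneg t) h2 2
    rwa [sq_abs, Real.sq_sqrt h0] at this
  rw [mem_closedBall_zero_iff]
  apply le_of_sq_le_sq _ hρ
  rw [norm_line hu hx]
  linarith

lemma sym_nonempty' {u : E} (hu : ‖u‖ = 1) {K : Set E} (h : K.Nonempty) : (sym u K).Nonempty := by
  obtain ⟨y, hy⟩ := h
  refine ⟨foot u y, foot u y, 0, by simp, foot_inner hu y, ⟨⟪y, u⟫, ?_⟩, ?_⟩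
  · rw [foot_add]; exact hy
  · simp

/-- chords are upper semicontinuous -/
lemma chord_near {u : E} (hu : ‖u‖ = 1) {K : Set E} (hK : IsCompact K) (x : E) {U : Set ℝ}
    (hU : IsOpen U) (h : chord u x K ⊆ U) : ∀ᶠ y in 𝓝 x, chord u y K ⊆ U := by
  by_contra hcon
  rw [Filter.not_eventually] at hcon
  obtain ⟨y, hy, hyb⟩ := Filter.frequently_iff_seq_forall.mp hcon
  have hbad : ∀ k, ∃ s, y k + s • u ∈ K ∧ s ∉ U := by
    intro k
    have := hyb k
    rw [Set.not_subset] at this
    obtain ⟨s, hs, hs'⟩ := this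
    exact ⟨s, hs, hs'⟩
  choose s hs hsU using hbad
  obtain ⟨z, hz, ψ, hψ, hlim⟩ := hK.tendsto_subseq hs
  have hy' : Tendsto (fun k => y (ψ k)) atTop (𝓝 x) := hy.comp hψ.tendsto_atTop
  have h1 : Tendsto (fun k => s (ψ k) • u) atTop (𝓝 (z - x)) := by
    have := hlim.sub hy'
    refine this.congr fun k => ?_
    simp [Function.comp]
  have h2 : Tendsto (fun k => s (ψ k)) atTop (𝓝 ⟪z - x, u⟫) := by
    have := Filter.Tendsto.inner (𝕜 := ℝ) h1 (tendsto_const_nhds (x := u))
    refine this.congr fun k => ?_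
    rw [inner_smul_left, inner_self_one hu]
    simp
  have h3 : z - x = (⟪z - x, u⟫ : ℝ) • u := by
    have := h2.smul_const u
    exact tendsto_nhds_unique h1 this
  have h4 : ⟪z - x, u⟫ ∈ chord u x K := by
    show x + (⟪z - x, u⟫ : ℝ) • u ∈ K
    rw [← h3]
    simpa using hz
  have h5 := h2.eventually (hU.mem_nhds (h h4))
  obtain ⟨k, hk⟩ := h5.exists
  exact hsU _ hk

lemma foot_continuous (u : E) : Continuous (foot u) := by
  unfold foot
  fun_prop

/-- The Steiner symmetral of a compact set is compact. -/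
lemma sym_compact [FiniteDimensional ℝ E] {u : E} (hu : ‖u‖ = 1) {K : Set E} (hK : IsCompact K) :
    IsCompact (sym u K) := by
  obtain ⟨ρ, hρ⟩ := hK.isBounded.subset_closedBall 0
  have hρ' : K ⊆ closedBall 0 (max ρ 0) := hρ.trans (closedBall_subset_closedBall (le_max_left _ _))
  refine Metric.isCompact_of_isClosed_isBounded ?_
    (isBounded_closedBall.subset (sym_subset_closedBall hu (le_max_right _ _) hρ'))
  apply IsSeqClosed.isClosed
  intro y z hy hz
  rw [mem_sym_iff hu]
  have hf : Tendsto (fun k => foot u (y k)) atTop (𝓝 (foot u z)) :=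
    ((foot_continuous u).tendsto z).comp hz
  have hi : Tendsto (fun k => ⟪y k, u⟫) atTop (𝓝 ⟪z, u⟫) := hz.inner tendsto_const_nhds
  constructor
  · by_contra hemp
    rw [Set.not_nonempty_iff_eq_empty] at hemp
    have := hf.eventually (chord_near hu hK (foot u z) isOpen_empty (by rw [hemp]))
    obtain ⟨k, hk⟩ := this.exists
    have h1 := ((mem_sym_iff hu _ _).1 (hy k)).1
    obtain ⟨s, hs⟩ := h1
    exact hk hs
  · apply le_of_forall_pos_le_add
    intro ε hε
    have hfin : volume (chord u (foot u z) K) < ⊤ := (chord_isCompact hu _ hK).measure_lt_top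
    have hlt : volume (chord u (foot u z) K) < volume (chord u (foot u z) K) + ENNReal.ofReal ε := by
      apply ENNReal.lt_add_right hfin.ne
      simpa using hε
    obtain ⟨U, hUsub, hUo, hUv⟩ := Set.exists_isOpen_lt_of_lt _ _ hlt
    have hev := hf.eventually (chord_near hu hK (foot u z) hUo hUsub)
    have hev2 : ∀ᶠ k in atTop, 2 * |⟪y k, u⟫| ≤ (volume (chord u (foot u z) K)).toReal + ε := by
      filter_upwards [hev] with k hk
      refine ((mem_sym_iff hu _ _).1 (hy k)).2.trans ?_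
      have h1 : volume (chord u (foot u (y k)) K) ≤
          volume (chord u (foot u z) K) + ENNReal.ofReal ε := (measure_mono hk).trans hUv.le
      have h2 := ENNReal.toReal_mono (ENNReal.add_ne_top.2 ⟨hfin.ne, ENNReal.ofReal_ne_top⟩) h1
      rwa [ENNReal.toReal_add hfin.ne ENNReal.ofReal_ne_top, ENNReal.toReal_ofReal hε.le] at h2
    have hlim : Tendsto (fun k => 2 * |⟪y k, u⟫|) atTop (𝓝 (2 * |⟪z, u⟫|)) :=
      (hi.abs).const_mul 2
    exact le_of_tendsto hlim hev2

end algebra

section measure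

variable {E : Type*} [NormedAddCommGroup E] [InnerProductSpace ℝ E] [FiniteDimensional ℝ E]
  [MeasurableSpace E] [BorelSpace E]

lemma chord_sym {u : E} (hu : ‖u‖ = 1) {x : E} (hx : ⟪x, u⟫ = 0) {K : Set E}
    (h : (chord u x K).Nonempty) :
    chord u x (sym u K) = Icc (-((volume (chord u x K)).toReal / 2))
      ((volume (chord u x K)).toReal / 2) := by
  ext t
  rw [chord, mem_ofPred_eq, mem_sym_line hu hx, mem_Icc, ← abs_le]
  constructor
  · rintro ⟨-, h2⟩
    linarith
  · rintro h2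
    exact ⟨h, by linarith⟩

/-- Volume comparison by chords. -/
lemma volume_le_of_chord {u : E} (hu : ‖u‖ = 1) {A B : Set E} (hA : MeasurableSet A)
    (hB : MeasurableSet B)
    (h : ∀ x : E, ⟪x, u⟫ = 0 → volume (chord u x A) ≤ volume (chord u x B)) :
    volume A ≤ volume B := by
  have h1 := setLIntegral_line hu (fun _ => (1 : ℝ≥0∞)) measurable_const hA
  have h2 := setLIntegral_line hu (fun _ => (1 : ℝ≥0∞)) measurable_const hB
  rw [setLIntegral_one] at h1 h2
  rw [h1, h2]
  apply lintegral_mono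
  intro x
  show ∫⁻ s in chord u (foot u x) A, (1 : ℝ≥0∞) ≤ ∫⁻ s in chord u (foot u x) B, (1 : ℝ≥0∞)
  rw [setLIntegral_one, setLIntegral_one]
  exact h _ (foot_inner hu x)

/-- The volume is preserved. -/
lemma sym_vol {u : E} (hu : ‖u‖ = 1) {K : Set E} (hK : IsCompact K) :
    volume (sym u K) = volume K := by
  have key : ∀ x : E, ⟪x, u⟫ = 0 → volume (chord u x (sym u K)) = volume (chord u x K) := by
    intro x hx
    rcases Set.eq_empty_or_nonempty (chord u x K) with h | h
    · rw [h, chord_sym_empty hu hx h]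
    · rw [chord_sym hu hx h, Real.volume_Icc]
      have hfin : volume (chord u x K) < ⊤ := (chord_isCompact hu _ hK).measure_lt_top
      rw [show (volume (chord u x K)).toReal / 2 - -((volume (chord u x K)).toReal / 2) =
        (volume (chord u x K)).toReal by ring, ENNReal.ofReal_toReal hfin.ne]
  apply le_antisymm
  · exact volume_le_of_chord hu (sym_compact hu hK).measurableSet hK.measurableSet
      fun x hx => (key x hx).le
  · exact volume_le_of_chord hu hK.measurableSet (sym_compact hu hK).measurableSet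
      fun x hx => (key x hx).ge

/-- The part inside a centred ball does not decrease. -/
lemma sym_inter_ball {u : E} (hu : ‖u‖ = 1) {K : Set E} (hK : IsCompact K) {r : ℝ} (hr : 0 ≤ r) :
    volume (K ∩ closedBall 0 r) ≤ volume (sym u K ∩ closedBall 0 r) := by
  apply volume_le_of_chord hu (hK.measurableSet.inter measurableSet_closedBall)
    ((sym_compact hu hK).measurableSet.inter measurableSet_closedBall)
  intro x hx
  have e : ∀ A B : Set E, chord u x (A ∩ B) = chord u x A ∩ chord u x B := fun A B => rfl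
  rw [e, e]
  rcases Set.eq_empty_or_nonempty (chord u x K) with h | h
  · rw [h]; simp
  · by_cases hxr : ‖x‖ ≤ r
    · rw [chord_ball hu hx hr hxr, chord_sym hu hx h]
      set s := √(r ^ 2 - ‖x‖ ^ 2) with hs
      set ℓ := (volume (chord u x K)).toReal with hℓ
      have hfin : volume (chord u x K) < ⊤ := (chord_isCompact hu _ hK).measure_lt_top
      rw [Set.Icc_inter_Icc, Real.volume_Icc]
      have hs0 : 0 ≤ s := Real.sqrt_nonneg _
      have hℓ0 : 0 ≤ ℓ := ENNReal.toReal_nonneg
      have h1 : volume (chord u x K ∩ Icc (-s) s) ≤ ENNReal.ofReal ℓ := by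
        rw [hℓ, ENNReal.ofReal_toReal hfin.ne]
        exact measure_mono inter_subset_left
      have h2 : volume (chord u x K ∩ Icc (-s) s) ≤ ENNReal.ofReal (2 * s) := by
        refine (measure_mono inter_subset_right).trans ?_
        rw [Real.volume_Icc]
        apply ENNReal.ofReal_le_ofReal
        linarith
      rcases le_total (ℓ / 2) s with h3 | h3
      · refine h1.trans (ENNReal.ofReal_le_ofReal ?_)
        rw [inf_eq_left.2 h3, sup_eq_left.2 (by linarith)]
        linarith
      · refine h2.trans (ENNReal.ofReal_le_ofReal ?_)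
        rw [inf_eq_right.2 h3, sup_eq_right.2 (by linarith)]
        linarith
    · have : chord u x (closedBall 0 r) = ∅ := by
        rw [Set.eq_empty_iff_forall_notMem]
        intro s hs
        have h1 : ‖x + s • u‖ ≤ r := by
          have : x + s • u ∈ closedBall 0 r := hs
          rwa [mem_closedBall_zero_iff] at this
        have h2 := pow_le_pow_left₀ (norm_nonneg _) h1 2
        rw [norm_line hu hx] at h2
        apply hxr
        apply le_of_sq_le_sq _ hr
        nlinarith [sq_nonneg s]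
      rw [this]
      simp

end measure

end Q187.Steiner
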