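import Pool.Agent.Q187.Steiner.Basic

/-!
# Full convergence of iterated Steiner symmetrals

If the iterated Steiner symmetrals of a nonempty compact set get into every centred ball that is
larger than the ball `B` of the same volume, then they converge to `B` in the Hausdorff distance.
-/

set_option autoImplicit false

open MeasureTheory Set Filter Topology Metric
open scoped RealInnerProductSpace ENNReal Pointwise

namespace Q187.Steiner

open Pool.Agent.H318R3.St

variable {E : Type*} [NormedAddCommGroup E] [InnerProductSpace ℝ E]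

/-- Iterated symmetrals. -/
def iter (u : ℕ → E) (K : Set E) : ℕ → Set E
  | 0 => K
  | i + 1 => sym (u i) (iter u K i)

variable [FiniteDimensional ℝ E]

lemma iter_compact {u : ℕ → E} (hu : ∀ i, ‖u i‖ = 1) {K : Set E} (hK : IsCompact K) (i : ℕ) :
    IsCompact (iter u K i) := by
  induction i with
  | zero => exact hK
  | succ i ih => exact sym_compact (hu i) ih

omit [FiniteDimensional ℝ E] in
lemma iter_nonempty {u : ℕ → E} (hu : ∀ i, ‖u i‖ = 1) {K : Set E} (hK : K.Nonempty) (i : ℕ) :
    (iter u K i).Nonempty := by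
  induction i with
  | zero => exact hK
  | succ i ih => exact sym_nonempty' (hu i) ih

omit [FiniteDimensional ℝ E] in
lemma iter_outer {u : ℕ → E} (hu : ∀ i, ‖u i‖ = 1) {K : Set E} {ρ : ℝ} (hρ : 0 ≤ ρ) {i j : ℕ}
    (hij : i ≤ j) (h : iter u K i ⊆ closedBall 0 ρ) : iter u K j ⊆ closedBall 0 ρ := by
  induction j, hij using Nat.le_induction with
  | base => exact h
  | succ j _ ih => exact sym_subset_closedBall (hu j) hρ ih

variable [MeasurableSpace E] [BorelSpace E]

lemma iter_vol {u : ℕ → E} (hu : ∀ i, ‖u i‖ = 1) {K : Set E} (hK : IsCompact K) (i : ℕ) :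
    volume (iter u K i) = volume K := by
  induction i with
  | zero => rfl
  | succ i ih =>
    show volume (sym (u i) (iter u K i)) = _
    rw [sym_vol (hu i) (iter_compact hu hK i), ih]

lemma iter_inter {u : ℕ → E} (hu : ∀ i, ‖u i‖ = 1) {K : Set E} (hK : IsCompact K) {r : ℝ}
    (hr : 0 ≤ r) {i j : ℕ} (hij : i ≤ j) :
    volume (iter u K i ∩ closedBall 0 r) ≤ volume (iter u K j ∩ closedBall 0 r) := by
  induction j, hij using Nat.le_induction with
  | base => exact le_rfl
  | succ j _ ih => exact ih.trans (sym_inter_ball (hu j) (iter_compact hu hK j) hr)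

/-- the volume of `B \ E_j` is at most that of `ball(r+δ) \ B` as soon as `E_i ⊆ ball(r+δ)`,
`i ≤ j`. -/
lemma iter_diff {u : ℕ → E} (hu : ∀ i, ‖u i‖ = 1) {K : Set E} (hK : IsCompact K) {r ρ : ℝ}
    (hr : 0 ≤ r) (hvol : volume (closedBall (0 : E) r) = volume K) {i j : ℕ} (hij : i ≤ j)
    (h : iter u K i ⊆ closedBall 0 ρ) :
    volume (closedBall (0 : E) r \ iter u K j) ≤
      volume (closedBall (0 : E) ρ \ closedBall (0 : E) r) := by
  have hm : ∀ k, MeasurableSet (iter u K k) := fun k => (iter_compact hu hK k).measurableSet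
  have hB : MeasurableSet (closedBall (0 : E) r) := measurableSet_closedBall
  have hBfin : volume (closedBall (0 : E) r) < ⊤ := measure_closedBall_lt_top
  have e1 : volume (closedBall (0 : E) r \ iter u K j) + volume (iter u K j ∩ closedBall 0 r) =
      volume (closedBall (0 : E) r) := by
    rw [add_comm, inter_comm]
    exact measure_inter_add_sdiff _ (hm j)
  have e2 : volume (iter u K i \ closedBall (0 : E) r) + volume (iter u K i ∩ closedBall 0 r) =
      volume (closedBall (0 : E) r) := by
    rw [add_comm, measure_inter_add_sdiff _ hB, iter_vol hu hK, hvol]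
  have e3 := iter_inter hu hK hr hij
  have hfin : volume (iter u K i ∩ closedBall 0 r) ≠ ⊤ :=
    ((measure_mono inter_subset_right).trans_lt hBfin).ne
  have e4 : volume (closedBall (0 : E) r \ iter u K j) + volume (iter u K i ∩ closedBall 0 r) ≤
      volume (iter u K i \ closedBall (0 : E) r) + volume (iter u K i ∩ closedBall 0 r) := by
    rw [e2, ← e1]
    gcongr
  have e5 := (ENNReal.add_le_add_iff_right hfin).1 e4
  exact e5.trans (measure_mono (sdiff_subset_sdiff_left h))

/-- The shells have small volume. -/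
lemma shell_small (r : ℝ) {c : ℝ≥0∞} (hc : 0 < c) :
    ∃ δ : ℝ, 0 < δ ∧ volume (closedBall (0 : E) (r + δ) \ closedBall (0 : E) r) < c := by
  let A : ℕ → Set E := fun k => closedBall (0 : E) (r + 1 / (k + 1 : ℝ)) \ closedBall (0 : E) r
  have hanti : Antitone A := by
    intro k l hkl
    apply sdiff_subset_sdiff_left
    apply closedBall_subset_closedBall
    have : (1 : ℝ) / (l + 1 : ℝ) ≤ 1 / (k + 1 : ℝ) := by
      apply one_div_le_one_div_of_le (by positivity)
      have : (k : ℝ) ≤ l := by exact_mod_cast hkl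
      linarith
    linarith
  have hInter : ⋂ k, A k = ∅ := by
    rw [Set.eq_empty_iff_forall_notMem]
    intro x hx
    rw [mem_iInter] at hx
    apply (hx 0).2
    rw [mem_closedBall_zero_iff]
    apply le_of_forall_pos_le_add
    intro ε hε
    obtain ⟨k, hk⟩ := exists_nat_one_div_lt hε
    have := (hx k).1
    rw [mem_closedBall_zero_iff] at this
    linarith
  have hlim : Tendsto (fun k => volume (A k)) atTop (𝓝 (volume (⋂ k, A k))) := by
    apply tendsto_measure_iInter_atTop
    · intro k
      exact (measurableSet_closedBall.diff measurableSet_closedBall).nullMeasurableSet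
    · exact hanti
    · exact ⟨0, ((measure_mono sdiff_subset).trans_lt measure_closedBall_lt_top).ne⟩
  rw [hInter, measure_empty] at hlim
  obtain ⟨k, hk⟩ := (hlim.eventually (gt_mem_nhds hc)).exists
  exact ⟨1 / (k + 1 : ℝ), by positivity, hk⟩

/-- inner approximation -/
lemma inner_approx {B : ℝ} (hB : 0 < B) {ε : ℝ} (hε : 0 < ε) {A : Set E}
    (hA : volume (closedBall (0 : E) B \ A) < volume (closedBall (0 : E) (min ε B / 2)))
    {x : E} (hx : x ∈ closedBall (0 : E) B) : ∃ z ∈ A, dist x z ≤ ε := by
  by_contra hcon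
  push Not at hcon
  set ρ := min ε B / 2 with hρ
  have hρ0 : 0 < ρ := by positivity
  have hρε : 2 * ρ ≤ ε := by rw [hρ]; linarith [min_le_left ε B]
  have hρB : 2 * ρ ≤ B := by rw [hρ]; linarith [min_le_right ε B]
  set x' : E := (1 - ρ / B) • x with hx'
  have hxB : ‖x‖ ≤ B := by rwa [mem_closedBall_zero_iff] at hx
  have h1 : ρ / B ≤ 1 := by rw [div_le_one hB]; linarith
  have h1' : 0 ≤ ρ / B := by positivity
  have h2 : ‖x'‖ ≤ B - ρ := by
    rw [hx', norm_smul, Real.norm_eq_abs, abs_of_nonneg (by linarith)]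
    calc (1 - ρ / B) * ‖x‖ ≤ (1 - ρ / B) * B := by
          apply mul_le_mul_of_nonneg_left hxB (by linarith)
      _ = B - ρ := by field_simp
  have h3 : dist x x' ≤ ρ := by
    rw [dist_eq_norm, hx', show x - (1 - ρ / B) • x = (ρ / B) • x by module, norm_smul,
      Real.norm_eq_abs, abs_of_nonneg h1']
    calc ρ / B * ‖x‖ ≤ ρ / B * B := mul_le_mul_of_nonneg_left hxB h1'
      _ = ρ := by field_simp
  have h4 : closedBall x' ρ ⊆ closedBall (0 : E) B \ A := by
    intro z hz
    have hz' : dist z x' ≤ ρ := hz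
    refine ⟨?_, ?_⟩
    · rw [mem_closedBall_zero_iff]
      have : ‖z‖ ≤ ‖x'‖ + dist z x' := by
        rw [dist_eq_norm]
        calc ‖z‖ = ‖x' + (z - x')‖ := by congr 1; abel
          _ ≤ _ := norm_add_le _ _
      linarith
    · intro hzA
      have h5 := hcon z hzA
      have h6 : dist x z ≤ dist x x' + dist x' z := dist_triangle _ _ _
      rw [dist_comm x' z] at h6
      linarith
  have h7 := measure_mono (μ := volume) h4
  have h8 : volume (closedBall x' ρ) = volume (closedBall (0 : E) ρ) :=
    Measure.addHaar_closedBall_center _ _ _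
  rw [h8] at h7
  exact absurd hA (not_lt.2 h7)

/-- The main quantitative statement: if the symmetrals get into every ball larger than the ball of
the same volume, then they are eventually close to it. -/
theorem eventually_close {u : ℕ → E} (hu : ∀ i, ‖u i‖ = 1) {K : Set E} (hK : IsCompact K)
    (hne : K.Nonempty) {r : ℝ} (hr : 0 ≤ r) (hvol : volume (closedBall (0 : E) r) = volume K)
    (hin : ∀ δ : ℝ, 0 < δ → ∃ i, iter u K i ⊆ closedBall 0 (r + δ)) {ε : ℝ} (hε : 0 < ε) :
    ∃ N, ∀ i, N ≤ i → iter u K i ⊆ closedBall 0 (r + ε) ∧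
      ∀ x ∈ closedBall (0 : E) r, ∃ z ∈ iter u K i, dist x z ≤ ε := by
  obtain ⟨N1, hN1⟩ := hin ε hε
  rcases hr.eq_or_lt with h0 | hpos
  · refine ⟨N1, fun i hi => ?_⟩
    have h1 := iter_outer hu (by linarith) hi hN1
    refine ⟨h1, fun x hx => ?_⟩
    obtain ⟨z, hz⟩ := iter_nonempty hu hne i
    refine ⟨z, hz, ?_⟩
    have h2 := h1 hz
    rw [mem_closedBall_zero_iff] at h2 hx
    have h3 : x = 0 := by
      rw [← norm_le_zero_iff]; linarith
    rw [h3, dist_zero_left]
    linarith
  · have hc : 0 < volume (closedBall (0 : E) (min ε r / 2)) :=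
      measure_closedBall_pos _ _ (by positivity)
    obtain ⟨δ, hδ, hδc⟩ := shell_small (E := E) r hc
    obtain ⟨N2, hN2⟩ := hin δ hδ
    refine ⟨max N1 N2, fun i hi => ⟨iter_outer hu (by linarith) ((le_max_left _ _).trans hi) hN1,
      fun x hx => ?_⟩⟩
    have h1 := iter_diff hu hK hr hvol ((le_max_right _ _).trans hi) hN2
    exact inner_approx hpos hε (h1.trans_lt hδc) hx

end Q187.Steiner
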